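import Pool.Agent.V1157.BM.Main

/-!
# Finite groups acting on the homology of the Brauer-Manin complex for zero-cycles

Fix a number field `F`, a dimension `n` and a prime `ℓ`. For a smooth projective geometrically
connected variety `X` over `F` of dimension `n` let `P(X)` be the ℓ-part of the completed group of
adelic zero-cycles of degree zero, tensored with `ℚ`, let `Z(X)` be the kernel of the map to the dual
of `Br(X)/Br_0(X)` and `I(X)` the image of the completed group of zero-cycles of degree zero on
`X` (ℓ-parts, tensored with `ℚ`). Put `E(X) = Z(X)/I(X)`. The following are equivalent: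

1. `E(X) = 0` for all `X`, that is, the ℓ-part of the complex is exact up to torsion;
2. for some finite group `G` and some non-zero `f ∈ ℚ_ℓ[G]` the dimension of `f E(X)` is bounded, by
   a bound valid for all actions of `G` on varieties `X` of dimension `n` (for example, `G = 1` and
   `f = 1`: the dimension of `E(X)` is bounded);
3. every finite group acting on a variety `X` of dimension `n` acts on `E(X)` through an abelian
   quotient;
4. the automorphisms in finite groups acting on varieties of dimension `n` satisfy, on the spaces
   `E(X)`, some non-zero multilinear polynomial identity.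

The formal properties used are: correspondences of degree zero act on `P(X)` and preserve `Z` and
`I`, and decomposable correspondences `x × y` act as zero on `P(X)`, because an adelic zero-cycle of
degree zero has intersection number zero with multiples of `X` (and its products with cycles of
positive codimension vanish).

Proof of 2 ⇒ 1: let `t ∈ Z(S)` and let `V` be a complete intersection of dimension `n`, stable under
`G`, in the power `S^(G × {0, …, D})`. Then `g_* (p 1 m)^* t = (p g m)^* t`, and
`(p h l)_* (p g m)^* t` is a non-zero multiple of `t` if `(g, m) = (h, l)` and zero otherwise.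
-/

open CategoryTheory AlgebraicGeometry

universe u v w z

namespace Pool.Agent.Results.MP_f80667_ag.FiniteGroupActions

open Pool.Agent.H914 Pool.Agent.H914.VarClass Pool.Agent.H914.VarClass.Obj Pool.Agent.W492.BB
  Pool.Agent.TH133 Pool.Agent.V1157.BM
open Pool.Agent.V1157.UR (CorrFunctor IsBirational)
open Pool.Agent.V1157.FG (HasEquivariantPower)

theorem result {k : Type u} [Field k] {𝒱 : VarClass k} {C : TheoryData.{u, v, 0} 𝒱 ℚ}
    [IsChowProj C] {K : Type w} [Field K] [CharZero K] (P : CorrFunctor.{u, v, w, z} C K)
    (Z I : ∀ X : 𝒱.Obj, Submodule K (P.W X)) (n : ℕ) (hP : IsBirational P n) (hZ : Stable P n Z)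
    (hI : Stable P n I)
    (hV : ∀ (G : Type) [Group G] [Finite G] (M : ℕ) (S : 𝒱.Obj), S.dim = n →
      HasEquivariantPower C n G M S) :
    List.TFAE [Exact P Z I n,
      ∃ (G : Type) (_ : Group G) (_ : Fintype G) (f : G → K) (D : ℕ), f ≠ 0 ∧
        RankAtMost P Z I n f D,
      ActAbelian P Z I n,
      ∃ (d : ℕ) (c : Equiv.Perm (Fin d) → K), c ≠ 0 ∧ ActIdentity P Z I n d c] :=
  main hP hZ hI hV

end Pool.Agent.Results.MP_f80667_ag.FiniteGroupActions
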